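import Pool.Agent.Lib.MP_d16af7_co.Main

/-!
# Haeggkvist's conjecture for all sufficiently large n

There is `n0` such that every oriented graph on `n ≥ n0` vertices with
`δ + δ⁺ + δ⁻ > (3 n - 3) / 2` has a Hamilton cycle.  Exactly the statement of Q1 for all large `n`.
-/

set_option autoImplicit false

namespace Pool.Agent.Results.MP_d16af7_co.LargeN

/-- There is `n0` such that every oriented graph `G` on at least `n0` vertices whose minimum degree plus minimum
outdegree plus minimum indegree exceeds `(3 n - 3) / 2` has a directed Hamilton cycle. -/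
theorem result :
    ∃ n0 : ℕ, ∀ (V : Type) [Fintype V] (G : Digraph V), n0 ≤ Fintype.card V →
      (∀ u v, G.Adj u v → ¬ G.Adj v u) →
      ∀ d dp dm : ℕ,
        (∀ v, d ≤ Nat.card {w // G.Adj v w} + Nat.card {w // G.Adj w v}) →
        (∀ v, dp ≤ Nat.card {w // G.Adj v w}) →
        (∀ v, dm ≤ Nat.card {w // G.Adj w v}) →
        3 * Fintype.card V < 2 * (d + dp + dm) + 3 →
        ∃ σ : Equiv.Perm V, σ.IsCycle ∧ ∀ v, G.Adj v (σ v) := by
  obtain ⟨n0, h⟩ := HX.large_n
  exact ⟨n0, fun V _ G hn => h V G.Adj hn⟩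

end Pool.Agent.Results.MP_d16af7_co.LargeN
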